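import Pool.Agent.Q100.CT.Stm

set_option autoImplicit false

open Set Filter Topology

namespace Pool.Agent.Q298.CT

open Pool.Agent.Q100.CT

/-- The determinant of two points of the centre. -/
noncomputable def dt (x y : ZZ) : ℝ := x 0 * y 1 - x 1 * y 0

theorem dt_smul (x y : ZZ) (c : ℝ) : dt x (c • y) = c * dt x y := by
  simp only [dt, Pi.smul_apply, smul_eq_mul]; ring

theorem dt_smul_smul (x y : ZZ) (c d : ℝ) : dt (c • x) (d • y) = c * d * dt x y := by
  simp only [dt, Pi.smul_apply, smul_eq_mul]; ring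

theorem dt_self (x : ZZ) : dt x x = 0 := by simp only [dt]; ring

theorem dec (x : ZZ) : x = x 0 • (![1, 0] : ZZ) + x 1 • (![0, 1] : ZZ) := by
  ext j; fin_cases j <;> simp

theorem dt_map (D : ZZ →ₗ[ℝ] ZZ) (x y : ZZ) :
    dt (D x) (D y) = dt (D ![1, 0]) (D ![0, 1]) * dt x y := by
  conv_lhs => rw [dec x, dec y]
  simp only [map_add, map_smul, dt, Pi.add_apply, Pi.smul_apply, smul_eq_mul]
  ring

theorem xi_ne (θ : ℝ) (i : Fin 4) : xi θ i ≠ 0 := by
  intro h
  fin_cases i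
  · have := congrFun h 0; simp [xi] at this
  · have := congrFun h 1; simp [xi] at this
  · have := congrFun h 0; simp [xi] at this
  · have := congrFun h 1; simp [xi] at this

theorem par (x y : ZZ) (hx : x ≠ 0) (h : dt x y = 0) : ∃ c : ℝ, y = c • x := by
  unfold dt at h
  by_cases h0 : x 0 = 0
  · have h1 : x 1 ≠ 0 := by
      intro h1; apply hx; ext j; fin_cases j <;> simp [h0, h1]
    refine ⟨y 1 / x 1, ?_⟩
    ext j; fin_cases j
    · rw [h0] at h
      have : y 0 = 0 := by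
        have h2 : x 1 * y 0 = 0 := by linarith
        rcases mul_eq_zero.mp h2 with h3 | h3
        · exact absurd h3 h1
        · exact h3
      simp [h0, this]
    · simp; field_simp
  · refine ⟨y 0 / x 0, ?_⟩
    ext j; fin_cases j
    · simp; field_simp
    · simp
      field_simp
      linarith

theorem bb_right1 (θ : ℝ) (p : VV) (i : Fin 4) : bb θ p (ev i 1) = p (i, 0) • xi θ i := by
  rw [bb_apply, Finset.sum_eq_single i]
  · congr 1
    unfold om ev
    simp
  · intro k _ hk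
    have : om k p (ev i 1) = 0 := by
      unfold om ev
      simp [hk]
    rw [this, zero_smul]
  · simp

theorem bb_right0 (θ : ℝ) (p : VV) (i : Fin 4) : bb θ p (ev i 0) = (-p (i, 1)) • xi θ i := by
  rw [bb_apply, Finset.sum_eq_single i]
  · congr 1
    unfold om ev
    simp
  · intro k _ hk
    have : om k p (ev i 0) = 0 := by
      unfold om ev
      simp [hk]
    rw [this, zero_smul]
  · simp

theorem claim (θ θ' : ℝ) (A : VV →ₗ[ℝ] VV) (D : ZZ →ₗ[ℝ] ZZ) (hA : Function.Injective A)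
    (h : ∀ v w, D (bb θ v w) = bb θ' (A v) (A w)) (j : Fin 4) :
    ∃ i : Fin 4, dt (xi θ' j) (D (xi θ i)) = 0 := by
  by_contra hc
  push Not at hc
  obtain ⟨p, hp⟩ := (LinearMap.injective_iff_surjective.mp hA) (ev j 0)
  have h1 : ∀ q, dt (xi θ' j) (D (bb θ p q)) = 0 := by
    intro q
    rw [h, hp, bb_ev, dt_smul, dt_self, mul_zero]
  have h2 : p = 0 := by
    ext k
    obtain ⟨i, l⟩ := k
    fin_cases l
    · have h3 := h1 (ev i 1)
      rw [bb_right1, map_smul, dt_smul] at h3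
      rcases mul_eq_zero.mp h3 with h4 | h4
      · simpa using h4
      · exact absurd h4 (hc i)
    · have h3 := h1 (ev i 0)
      rw [bb_right0, map_smul, dt_smul] at h3
      rcases mul_eq_zero.mp h3 with h4 | h4
      · simpa using h4
      · exact absurd h4 (hc i)
  rw [h2, map_zero] at hp
  have h5 := congrArg (fun v : VV => v (j, 0)) hp
  simp [ev] at h5

theorem alg : S_alg := by
  intro θ hθ
  apply Set.Finite.subset (Set.finite_range (fun s : Fin 4 → Fin 4 =>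
    (1 / 2 : ℝ) * ((dt (xi θ (s 0)) (xi θ (s 2)) * dt (xi θ (s 1)) (xi θ (s 3))) /
      (dt (xi θ (s 0)) (xi θ (s 3)) * dt (xi θ (s 1)) (xi θ (s 2))))))
  rintro θ' ⟨hθ', A, D, hA, hD, h⟩
  choose s hs using claim θ θ' A D hA h
  have h1 : ∀ j, ∃ c : ℝ, D (xi θ (s j)) = c • xi θ' j := fun j =>
    par _ _ (xi_ne θ' j) (hs j)
  choose c hc using h1
  have hc0 : ∀ j, c j ≠ 0 := by
    intro j h0
    have h2 := hc j
    rw [h0, zero_smul] at h2
    exact xi_ne θ (s j) (hD (by rw [h2, map_zero]))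
  have key : ∀ a b, c a * c b * dt (xi θ' a) (xi θ' b) =
      dt (D ![1, 0]) (D ![0, 1]) * dt (xi θ (s a)) (xi θ (s b)) := by
    intro a b
    rw [← dt_smul_smul, ← hc, ← hc, dt_map]
  have k02 := key 0 2
  have k13 := key 1 3
  have k03 := key 0 3
  have k12 := key 1 2
  have e02 : dt (xi θ' 0) (xi θ' 2) = 1 / 2 := by simp [dt, xi]
  have e13 : dt (xi θ' 1) (xi θ' 3) = -θ' := by simp [dt, xi]
  have e03 : dt (xi θ' 0) (xi θ' 3) = 1 / 2 := by simp [dt, xi]
  have e12 : dt (xi θ' 1) (xi θ' 2) = -(1 / 2) := by simp [dt, xi]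
  rw [e02] at k02
  rw [e13] at k13
  rw [e03] at k03
  rw [e12] at k12
  set δ := dt (D ![1, 0]) (D ![0, 1]) with hδ
  set d02 := dt (xi θ (s 0)) (xi θ (s 2))
  set d13 := dt (xi θ (s 1)) (xi θ (s 3))
  set d03 := dt (xi θ (s 0)) (xi θ (s 3))
  set d12 := dt (xi θ (s 1)) (xi θ (s 2))
  have n03 : d03 ≠ 0 := by
    intro h0
    rw [h0, mul_zero] at k03
    have := mul_ne_zero (mul_ne_zero (hc0 0) (hc0 3)) (by norm_num : (1 / 2 : ℝ) ≠ 0)
    exact this k03
  have n12 : d12 ≠ 0 := by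
    intro h0
    rw [h0, mul_zero] at k12
    have := mul_ne_zero (mul_ne_zero (hc0 1) (hc0 2)) (by norm_num : -(1 / 2 : ℝ) ≠ 0)
    exact this k12
  have nδ : δ ≠ 0 := by
    intro h0
    rw [h0, zero_mul] at k03
    have := mul_ne_zero (mul_ne_zero (hc0 0) (hc0 3)) (by norm_num : (1 / 2 : ℝ) ≠ 0)
    exact this k03
  refine ⟨s, ?_⟩
  show (1 / 2 : ℝ) * ((d02 * d13) / (d03 * d12)) = θ'
  have e1 : δ ^ 2 * (d02 * d13) = c 0 * c 1 * c 2 * c 3 * (-θ' / 2) := by
    calc δ ^ 2 * (d02 * d13) = (δ * d02) * (δ * d13) := by ring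
      _ = (c 0 * c 2 * (1 / 2)) * (c 1 * c 3 * (-θ')) := by rw [← k02, ← k13]
      _ = _ := by ring
  have e2 : δ ^ 2 * (d03 * d12) = c 0 * c 1 * c 2 * c 3 * (-1 / 4) := by
    calc δ ^ 2 * (d03 * d12) = (δ * d03) * (δ * d12) := by ring
      _ = (c 0 * c 3 * (1 / 2)) * (c 1 * c 2 * (-(1 / 2))) := by rw [← k03, ← k12]
      _ = _ := by ring
  have e3 : δ ^ 2 * (d02 * d13) = δ ^ 2 * (2 * θ' * (d03 * d12)) := by
    calc δ ^ 2 * (d02 * d13) = 2 * θ' * (c 0 * c 1 * c 2 * c 3 * (-1 / 4)) := by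
          rw [e1]; ring
      _ = _ := by rw [← e2]; ring
  have e4 : d02 * d13 = 2 * θ' * (d03 * d12) := mul_left_cancel₀ (pow_ne_zero 2 nδ) e3
  rw [e4]
  have : d03 * d12 ≠ 0 := mul_ne_zero n03 n12
  field_simp

end Pool.Agent.Q298.CT
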