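import Pool.Agent.Q100.CT.Stm

set_option autoImplicit false

open Set Filter Topology

namespace Pool.Agent.Q298.CT

open Pool.Agent.Q100.CT

theorem asd (hnet : S_net) (hball : S_ball) (hdist : S_dist) : S_asd := by
  intro θ hθ
  obtain ⟨C, hC⟩ := hball (form θ hθ)
  obtain ⟨-, hd1, K, hK1, hd2⟩ := hdist θ hθ
  refine ⟨C * 10 ^ 12, fun R => ?_⟩
  choose rnd hrnd using hnet (form θ hθ)
  have hM : (0 : ℝ) < (R : ℝ) + 1 := by positivity
  have hMi : (0 : ℝ) < ((R : ℝ) + 1)⁻¹ := inv_pos.mpr hM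
  have hdil : ∀ a b, rho (form θ hθ) (dil ((R : ℝ) + 1)⁻¹ (io a)) (dil ((R : ℝ) + 1)⁻¹ (io b)) =
      ((R : ℝ) + 1)⁻¹ * rho (form θ hθ) (io a) (io b) := by
    intro a b
    rw [rho_dil, abs_of_pos hMi]
  refine ⟨PP, fun P => {a | rnd (dil ((R : ℝ) + 1)⁻¹ (io a)) = P},
    ⌈K * (6 * ((R : ℝ) + 1)) + K⌉₊, ?_, ?_, ?_⟩
  · intro P a ha b hb
    simp only [mem_setOf_eq] at ha hb
    have h1 := hrnd (dil ((R : ℝ) + 1)⁻¹ (io a))
    have h2 := hrnd (dil ((R : ℝ) + 1)⁻¹ (io b))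
    rw [ha] at h1
    rw [hb] at h2
    have h3 := rho_tri (form θ hθ) (dil ((R : ℝ) + 1)⁻¹ (io a)) (io P)
      (dil ((R : ℝ) + 1)⁻¹ (io b))
    rw [rho_comm] at h1
    rw [hdil] at h3
    have h4 : ((R : ℝ) + 1)⁻¹ * rho (form θ hθ) (io a) (io b) ≤ 6 := by linarith
    have h5 : rho (form θ hθ) (io a) (io b) ≤ 6 * ((R : ℝ) + 1) := by
      rw [inv_mul_le_iff₀ hM] at h4
      linarith
    have h6 := hd2 a b
    have h7 : ((XX (form θ hθ)).dist a b : ℝ) ≤ K * (6 * ((R : ℝ) + 1)) + K := by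
      have : K * rho (form θ hθ) (io a) (io b) ≤ K * (6 * ((R : ℝ) + 1)) :=
        mul_le_mul_of_nonneg_left h5 (by linarith)
      linarith
    have h8 := h7.trans (Nat.le_ceil _)
    exact_mod_cast h8
  · intro x
    exact ⟨_, rfl⟩
  · intro x
    have hsub : {P : PP | ∃ y ∈ {a | rnd (dil ((R : ℝ) + 1)⁻¹ (io a)) = P},
        (XX (form θ hθ)).dist x y ≤ R} ⊆
        {P : PP | rho (form θ hθ) (dil ((R : ℝ) + 1)⁻¹ (io x)) (io P) ≤ 10} := by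
      rintro P ⟨y, hy, hxy⟩
      simp only [mem_setOf_eq] at hy ⊢
      have h1 := hrnd (dil ((R : ℝ) + 1)⁻¹ (io y))
      rw [hy, rho_comm] at h1
      have h2 := rho_tri (form θ hθ) (dil ((R : ℝ) + 1)⁻¹ (io x)) (dil ((R : ℝ) + 1)⁻¹ (io y))
        (io P)
      rw [hdil] at h2
      have h3 := hd1 x y
      have h4 : ((XX (form θ hθ)).dist x y : ℝ) ≤ R := by exact_mod_cast hxy
      have h5 : ((R : ℝ) + 1)⁻¹ * rho (form θ hθ) (io x) (io y) ≤ 7 := by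
        rw [inv_mul_le_iff₀ hM]
        linarith
      linarith
    obtain ⟨hf, hc⟩ := hC (dil ((R : ℝ) + 1)⁻¹ (io x)) 10 (by norm_num)
    refine ⟨hf.subset hsub, ?_⟩
    have h6 := Set.ncard_le_ncard hsub hf
    have h7 : {P : PP | rho (form θ hθ) (dil ((R : ℝ) + 1)⁻¹ (io x)) (io P) ≤ 10}.ncard ≤
        C * 10 ^ 12 := by exact_mod_cast hc
    exact (h6.trans h7).trans (Nat.le_succ _)

end Pool.Agent.Q298.CT
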